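import Pool.Agent.Lib.MP_2e175a_an.Main

/-!
# Spaces that fail the Radon-Nikodym property can be renormed with large slices (MP_2e175a_an)

For every real Banach space `X` (in any universe) the following are equivalent:

1. `X` fails the Radon-Nikodym property;
2. some nonempty bounded subset of `X` is not dentable;
3. for every `ε > 0` there is an equivalent norm `|·|` on `X` such that every slice of the
   `|·|`-unit ball has `|·|`-diameter greater than `2 - ε`;
4. for some equivalent norm on `X` the diameters of the slices of the new unit ball are bounded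
   below by a positive constant.

`1 ⇒ 3` answers the question of Schachermayer, Sersouri and Werner.
-/

namespace Pool.Agent.Results.MP_2e175a_an.FailsRNPTFAE

universe u

/-- The slice `S(B, f, α) = {x ∈ B : f x > sup_B f - α}`. -/
def slice {X : Type u} [NormedAddCommGroup X] [NormedSpace ℝ X] (B : Set X) (f : X →L[ℝ] ℝ)
    (α : ℝ) : Set X :=
  {x | x ∈ B ∧ sSup (f '' B) - α < f x}

/-- `B` has slices (given by nonzero functionals) of arbitrarily small diameter. -/
def Dentable {X : Type u} [NormedAddCommGroup X] [NormedSpace ℝ X] (B : Set X) : Prop :=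
  ∀ δ : ℝ, 0 < δ → ∃ f : X →L[ℝ] ℝ, f ≠ 0 ∧ ∃ α : ℝ, 0 < α ∧ Metric.diam (slice B f α) < δ

/-- The Radon-Nikodym property: every nonempty closed bounded convex subset is dentable. -/
def RNP (X : Type u) [NormedAddCommGroup X] [NormedSpace ℝ X] : Prop :=
  ∀ B : Set X, B.Nonempty → IsClosed B → Bornology.IsBounded B → Convex ℝ B → Dentable B

/-- The seminorm `N` is a norm equivalent to the given norm: `c ‖x‖ ≤ N x ≤ C ‖x‖` for all `x`,
with constants `0 < c ≤ C`. -/
def IsEquivalentNorm {X : Type u} [NormedAddCommGroup X] [NormedSpace ℝ X]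
    (N : Seminorm ℝ X) : Prop :=
  ∃ c C : ℝ, 0 < c ∧ c ≤ C ∧ ∀ x : X, c * ‖x‖ ≤ N x ∧ N x ≤ C * ‖x‖

/-- The diameter of the set `A` in the norm `N`. -/
noncomputable def diamIn {X : Type u} [NormedAddCommGroup X] [NormedSpace ℝ X]
    (N : Seminorm ℝ X) (A : Set X) : ℝ :=
  sSup {r : ℝ | ∃ x ∈ A, ∃ y ∈ A, r = N (x - y)}

section

variable {X : Type u} [NormedAddCommGroup X] [NormedSpace ℝ X]

private lemma far_of_notDentable {B : Set X} {δ : ℝ} (hδ : 0 < δ)
    {f : X →L[ℝ] ℝ} {α : ℝ} (h : δ ≤ Metric.diam (slice B f α)) :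
    ∃ x ∈ slice B f α, ∃ y ∈ slice B f α, δ / 2 ≤ ‖x - y‖ := by
  by_contra hcon
  push Not at hcon
  have h1 : Metric.diam (slice B f α) ≤ δ / 2 := by
    apply Metric.diam_le_of_forall_dist_le (by positivity)
    intro x hx y hy
    rw [dist_eq_norm]
    exact (hcon x hx y hy).le
  linarith

private lemma hyp_of_notDentable [Nontrivial X] {B : Set X} (hne : B.Nonempty)
    (hB : Bornology.IsBounded B) (h : ¬ Dentable B) :
    ∃ D : Set X, D.Nonempty ∧ Bornology.IsBounded D ∧ ∃ δ : ℝ, 0 < δ ∧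
        ∀ f : X →L[ℝ] ℝ, ∀ α : ℝ, 0 < α →
          ∃ x ∈ D, ∃ y ∈ D, sSup (f '' D) - α < f x ∧ sSup (f '' D) - α < f y ∧
            δ ≤ ‖x - y‖ := by
  unfold Dentable at h
  push Not at h
  obtain ⟨δ, hδ, h⟩ := h
  refine ⟨B, hne, hB, δ / 2, by positivity, ?_⟩
  intro f α hα
  by_cases hf : f = 0
  · subst hf
    obtain ⟨v, hv⟩ := exists_ne (0 : X)
    obtain ⟨g, -, hg⟩ := exists_dual_vector ℝ v (norm_ne_zero_iff.mpr hv)
    have hg0 : g ≠ 0 := by
      rintro rfl
      have h1 : ((‖v‖ : ℝ)) = 0 := by simpa using hg.symm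
      exact hv (norm_eq_zero.mp h1)
    obtain ⟨x, hx, y, hy, hxy⟩ := far_of_notDentable hδ (h g hg0 1 one_pos)
    have h0 : sSup ((0 : X →L[ℝ] ℝ) '' B) - α < 0 := by
      have h1 : (0 : X →L[ℝ] ℝ) '' B = {0} := by
        ext r
        constructor
        · rintro ⟨z, -, rfl⟩
          simp
        · intro hr
          obtain ⟨z, hz⟩ := hne
          exact ⟨z, hz, by simpa using (Set.mem_singleton_iff.mp hr).symm⟩
      rw [h1, csSup_singleton]
      linarith
    exact ⟨x, hx.1, y, hy.1, by simpa using h0, by simpa using h0, hxy⟩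
  · obtain ⟨x, hx, y, hy, hxy⟩ := far_of_notDentable hδ (h f hf α hα)
    exact ⟨x, hx.1, y, hy.1, hx.2, hy.2, hxy⟩

private lemma two_to_three [CompleteSpace X] {B : Set X} (hne : B.Nonempty)
    (hB : Bornology.IsBounded B) (h : ¬ Dentable B) (ε : ℝ) (hε : 0 < ε) :
    ∃ N : Seminorm ℝ X, IsEquivalentNorm N ∧ ∀ f : X →L[ℝ] ℝ, f ≠ 0 → ∀ α : ℝ, 0 < α →
      2 - ε < diamIn N (slice {x | N x ≤ 1} f α) := by
  rcases subsingleton_or_nontrivial X with hX | hX
  · refine ⟨normSeminorm ℝ X, ⟨1, 1, one_pos, le_rfl, fun x => by simp⟩, ?_⟩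
    intro f hf
    exact absurd (ContinuousLinearMap.ext fun x => by
      rw [Subsingleton.elim x 0, map_zero, map_zero]) hf
  · obtain ⟨N, ⟨c, hc, C, hC, hN⟩, hS⟩ :=
      Pool.Agent.MP2e175a.main (hyp_of_notDentable hne hB h) ε hε
    refine ⟨N, ⟨c, max c C, hc, le_max_left _ _, fun x => ⟨(hN x).1, (hN x).2.trans ?_⟩⟩, ?_⟩
    · exact mul_le_mul_of_nonneg_right (le_max_right _ _) (norm_nonneg _)
    · intro f _ α hα
      obtain ⟨x, y, hx, hy, hfx, hfy, hxy⟩ := hS f α hα
      refine hxy.trans_le (le_csSup ?_ ⟨x, ⟨hx, hfx⟩, y, ⟨hy, hfy⟩, rfl⟩)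
      refine ⟨2, ?_⟩
      rintro r ⟨a, ha, b, hb, rfl⟩
      have h1 := map_sub_le_add N a b
      have h2 : N a ≤ 1 := ha.1
      have h3 : N b ≤ 1 := hb.1
      linarith

private lemma four_to_one {N : Seminorm ℝ X} (hN : IsEquivalentNorm N) {δ : ℝ} (hδ : 0 < δ)
    (h : ∀ f : X →L[ℝ] ℝ, f ≠ 0 → ∀ α : ℝ, 0 < α → δ ≤ diamIn N (slice {x | N x ≤ 1} f α)) :
    ¬ RNP X := by
  intro hR
  obtain ⟨c, C, hc, hcC, hN⟩ := hN
  have hC : 0 < C := hc.trans_le hcC
  have hcont : Continuous fun x => N x := by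
    have hL : LipschitzWith ⟨C, hC.le⟩ fun x => N x := by
      apply LipschitzWith.of_dist_le_mul
      intro x y
      rw [Real.dist_eq, dist_eq_norm]
      exact (abs_sub_map_le_sub N x y).trans (hN _).2
    exact hL.continuous
  have hbd : Bornology.IsBounded {x : X | N x ≤ 1} := by
    refine (Metric.isBounded_closedBall (x := (0 : X)) (r := c⁻¹)).subset ?_
    intro x hx
    rw [mem_closedBall_zero_iff, ← one_div, le_div_iff₀ hc, mul_comm]
    exact (hN x).1.trans hx
  have hcv : Convex ℝ {x : X | N x ≤ 1} := by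
    have := N.convexOn.convex_le 1
    simpa using this
  obtain ⟨f, hf, α, hα, hd⟩ := hR {x : X | N x ≤ 1} ⟨0, by simp⟩
    (isClosed_le hcont continuous_const) hbd hcv (δ / C) (by positivity)
  have h1 : diamIn N (slice {x | N x ≤ 1} f α) ≤
      C * Metric.diam (slice {x : X | N x ≤ 1} f α) := by
    apply Real.sSup_le
    · rintro r ⟨a, ha, b, hb, rfl⟩
      refine (hN _).2.trans (mul_le_mul_of_nonneg_left ?_ hC.le)
      rw [← dist_eq_norm]
      exact Metric.dist_le_diam_of_mem (hbd.subset fun z hz => hz.1) ha hb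
    · exact mul_nonneg hC.le Metric.diam_nonneg
  have h2 : C * Metric.diam (slice {x : X | N x ≤ 1} f α) < δ := by
    calc _ < C * (δ / C) := mul_lt_mul_of_pos_left hd hC
      _ = δ := by field_simp
  have h3 := h f hf α hα
  linarith

end

/-- For every real Banach space `X` the following are equivalent: `X` fails the Radon-Nikodym
property; some nonempty bounded subset of `X` is not dentable; for every `ε > 0` there is an
equivalent norm on `X` such that every slice of the new unit ball has new diameter greater than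
`2 - ε`; there is an equivalent norm on `X` for which the diameters of the slices of the unit
ball are bounded below by a positive constant. -/
theorem result (X : Type u) [NormedAddCommGroup X] [NormedSpace ℝ X] [CompleteSpace X] :
    List.TFAE [
      ¬ RNP X,
      ∃ B : Set X, B.Nonempty ∧ Bornology.IsBounded B ∧ ¬ Dentable B,
      ∀ ε : ℝ, 0 < ε → ∃ N : Seminorm ℝ X, IsEquivalentNorm N ∧
        ∀ f : X →L[ℝ] ℝ, f ≠ 0 → ∀ α : ℝ, 0 < α →
          2 - ε < diamIn N (slice {x | N x ≤ 1} f α),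
      ∃ N : Seminorm ℝ X, IsEquivalentNorm N ∧ ∃ δ : ℝ, 0 < δ ∧
        ∀ f : X →L[ℝ] ℝ, f ≠ 0 → ∀ α : ℝ, 0 < α →
          δ ≤ diamIn N (slice {x | N x ≤ 1} f α)] := by
  tfae_have 1 → 2 := by
    intro h
    unfold RNP at h
    push Not at h
    obtain ⟨B, h1, -, h3, -, h5⟩ := h
    exact ⟨B, h1, h3, h5⟩
  tfae_have 2 → 3 := by
    rintro ⟨B, h1, h2, h3⟩ ε hε
    exact two_to_three h1 h2 h3 ε hε
  tfae_have 3 → 4 := by
    intro h
    obtain ⟨N, h1, h2⟩ := h 1 one_pos
    exact ⟨N, h1, 1, one_pos, fun f hf α hα => by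
      have := h2 f hf α hα
      linarith⟩
  tfae_have 4 → 1 := by
    rintro ⟨N, h1, δ, hδ, h2⟩
    exact four_to_one h1 hδ h2
  tfae_finish

end Pool.Agent.Results.MP_2e175a_an.FailsRNPTFAE
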